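import Pool.Agent.J6H54.CH.Stm

/-!
# CH-04: a geodesic word whose path stays near `j` has bounded length (adapted from `J6H16/CG/M04`)
-/

set_option autoImplicit false

namespace Pool.Agent.J6H85.CH04

open Pool.Agent.J6H54.CH

/-- `n ≤ A + C log n` bounds `n` -/
theorem log_bound (A C n : ℕ) (h : n ≤ A + C * Nat.log 2 n) :
    n ≤ A + C * (2 * (A + 2 * C) + 1) := by
  rcases Nat.eq_zero_or_pos n with h0 | h0
  · omega
  have h1 : 2 ^ Nat.log 2 n ≤ n := Nat.pow_log_le_self 2 h0.ne'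
  obtain ⟨p, hp | hp⟩ : ∃ p, Nat.log 2 n = 2 * p ∨ Nat.log 2 n = 2 * p + 1 := by
    refine ⟨Nat.log 2 n / 2, ?_⟩
    omega
  all_goals
    have h2 : (p + 1) * (p + 1) ≤ 2 ^ Nat.log 2 n := by
      have h3 : p + 1 ≤ 2 ^ p := Nat.lt_two_pow_self
      calc (p + 1) * (p + 1) ≤ 2 ^ p * 2 ^ p := Nat.mul_le_mul h3 h3
        _ = 2 ^ (2 * p) := by rw [two_mul, pow_add]
        _ ≤ 2 ^ Nat.log 2 n := Nat.pow_le_pow_right (by norm_num) (by omega)
    have h4 : (p + 1) * (p + 1) ≤ A + C * (2 * p + 1) := by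
      refine (h2.trans h1).trans (h.trans ?_)
      exact Nat.add_le_add_left (Nat.mul_le_mul_left C (by omega)) A
    have h5 : p + 1 ≤ A + 2 * C := by
      by_contra hc
      push Not at hc
      have h6 : (A + 2 * C + 1) * (p + 1) ≤ (p + 1) * (p + 1) := Nat.mul_le_mul_right _ hc
      nlinarith [Nat.zero_le (A * p), Nat.zero_le (C * p)]
    have h7 : Nat.log 2 n ≤ 2 * (A + 2 * C) + 1 := by omega
    exact h.trans (Nat.add_le_add_left (Nat.mul_le_mul_left C h7) A)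

/-- CH-04 -/
theorem m04 (h2 : S_metric) (h3 : S_in) : S_inside := by
  intro Λ _ σ T p q κ M C0 R D H hT hB
  obtain ⟨C, hC⟩ := h2 Λ σ T p q κ M C0 R H hT hB
  obtain ⟨A, hA⟩ : ∃ A : ℕ, A = C * (4 * D + R + 2) + R * (2 * D + R) := ⟨_, rfl⟩
  refine ⟨A + C * (2 * (A + 2 * C) + 1) + 1, ?_⟩
  intro j s w hw hI
  rcases w with _ | ⟨a, v⟩
  · simp
  have hv : Geo σ T v := by
    have : Geo σ T ([a] ++ v) := by simpa using hw
    exact this.right hT
  have hin : ∀ i < v.length, (s + a.2 + ht (v.take i) - j).natAbs ≤ D := by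
    intro i hi
    have := hI (i + 1) (by omega) (by simpa using hi)
    rw [List.take_succ_cons, ht_cons, ← add_assoc] at this
    exact this
  rcases List.eq_nil_or_concat v with hv0 | ⟨u, b, hub⟩
  · subst hv0
    simp
  have hvl : v.length = u.length + 1 := by simp [hub]
  obtain ⟨s', hs'⟩ : ∃ s' : ℤ, s' = s + a.2 := ⟨_, rfl⟩
  rw [← hs'] at hin
  have h0 : (s' - j).natAbs ≤ D := by
    have := hin 0 (by omega)
    simpa using this
  obtain ⟨hpv, hqv⟩ := h3 Λ σ T p q κ M C0 R H hB v (j - D) (j + D) s' hv.1 (by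
    intro i hi
    have := hin i hi
    omega)
  obtain ⟨n1, hn1⟩ : ∃ n1 : ℕ, (n1 : ℤ) = 2 * D + (s' - (j + D)) :=
    ⟨(2 * (D : ℤ) + (s' - (j + D))).toNat, Int.toNat_of_nonneg (by omega)⟩
  obtain ⟨n2, hn2⟩ : ∃ n2 : ℕ, (n2 : ℤ) = 2 * D - (s' - (j - D)) :=
    ⟨(2 * (D : ℤ) - (s' - (j - D))).toNat, Int.toNat_of_nonneg (by omega)⟩
  have hκ : ∀ n : ℕ, κ ^ n ≤ 1 := fun n => pow_le_one₀ H.κ_pos.le H.κ_lt.le
  obtain ⟨x, hx⟩ : ∃ x, x = (val σ v).1 := ⟨_, rfl⟩
  rw [← hx] at hpv hqv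
  have hp1 : p ((σ ^ (-((2 * D : ℕ) : ℤ))) x) ≤ v.length * R := by
    have h4 := H.p_pow n1 ((σ ^ (s' - (j + D))) x)
    rw [← pow_add_apply] at h4
    have e : -(n1 : ℤ) + (s' - (j + D)) = -((2 * D : ℕ) : ℤ) := by
      push_cast
      omega
    rw [e] at h4
    have h5 := mul_le_mul_of_nonneg_right (hκ n1) (H.p_nonneg ((σ ^ (s' - (j + D))) x))
    linarith
  have hq1 : q ((σ ^ ((2 * D : ℕ) : ℤ)) x) ≤ v.length * R := by
    have h4 := H.q_pow n2 ((σ ^ (s' - (j - D))) x)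
    rw [← pow_add_apply] at h4
    have e : (n2 : ℤ) + (s' - (j - D)) = ((2 * D : ℕ) : ℤ) := by
      push_cast
      omega
    rw [e] at h4
    have h5 := mul_le_mul_of_nonneg_right (hκ n2) (H.q_nonneg ((σ ^ (s' - (j - D))) x))
    linarith
  have hht : (ht v).natAbs ≤ 2 * D + R := by
    have hb : b ∈ v := by simp [hub]
    have h7 := hB.ht_le b (hv.1 b hb)
    have h8 := hin u.length (by omega)
    have h9 : v.take u.length = u := by simp [hub]
    rw [h9] at h8
    have h10 : ht v = ht u + b.2 := by simp [hub]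
    omega
  obtain ⟨N, hN⟩ : ∃ N, N = Nat.log 2 v.length + 1 + R := ⟨_, rfl⟩
  have hvN : v.length * R ≤ 2 ^ N := by
    have h11 : v.length < 2 ^ (Nat.log 2 v.length + 1) :=
      Nat.lt_pow_succ_log_self (by norm_num) _
    have h12 : R < 2 ^ R := Nat.lt_two_pow_self
    rw [hN, pow_add]
    exact Nat.mul_le_mul h11.le h12.le
  have hvN' : (v.length : ℝ) * R ≤ 2 ^ N := by exact_mod_cast hvN
  have hm := hC (2 * D) (2 * D) N x (hp1.trans hvN') (hq1.trans hvN')
  have hvert := len_vert hT hB (ht v)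
  have hadd := len_add hT x 0 0 (ht v)
  simp only [map_zero, add_zero, zero_add] at hadd
  have hval : val σ v = (x, ht v) := by
    rw [hx, ← val_snd (σ := σ) v]
  have hlen : v.length ≤ len σ T (x, 0) + len σ T (0, ht v) := by
    rw [← hv.2, hval]
    exact hadd
  have h12 : R * (ht v).natAbs ≤ R * (2 * D + R) := Nat.mul_le_mul_left R hht
  have h13 : v.length ≤ A + C * Nat.log 2 v.length := by
    have h14 : C * (2 * D + 2 * D + N + 1) =
        C * (4 * D + R + 2) + C * Nat.log 2 v.length := by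
      rw [hN]; ring
    rw [h14] at hm
    omega
  have h15 := log_bound A C v.length h13
  simp only [List.length_cons]
  omega

end Pool.Agent.J6H85.CH04
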